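import Pool.Agent.Helper43.AM.RatMom

/-!
# AM, block C6a: rational centres and radii are enough for the limits of the moments
-/

open MeasureTheory Real Set Filter Topology

set_option autoImplicit false

namespace Pool.Agent.Helper43.AM

open Pool.Agent.Helper22.AE
open Pool.Agent.Helper22.AC (cntc)

/-- the lattice points of a domain are finitely many, uniformly for bounded radii and centres -/
theorem cntc_box' (H : ℝ → ℝ) (K N : ℝ) : ∃ B : Finset (ℤ × ℤ), ∀ c : ℝ × ℝ, |c.1| ≤ K → |c.2| ≤ K → ∀ R : ℝ, |R| ≤ N → ∀ k : ℤ × ℤ,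
    (∀ θ : ℝ, ((k.1 : ℝ) - c.1) * cos θ + ((k.2 : ℝ) - c.2) * sin θ ≤ R * H θ) → k ∈ B := by
  refine ⟨(Finset.Icc ⌈-K - N * |H π|⌉ ⌊K + N * |H 0|⌋) ×ˢ
    (Finset.Icc ⌈-K - N * |H (-(π / 2))|⌉ ⌊K + N * |H (π / 2)|⌋), fun c hc1 hc2 R hR k hk => ?_⟩
  have hb : ∀ x : ℝ, R * H x ≤ N * |H x| := fun x =>
    (le_abs_self _).trans ((abs_mul R (H x)).le.trans (mul_le_mul_of_nonneg_right hR (abs_nonneg _)))
  have h1 := hk 0
  have h2 := hk π
  have h3 := hk (π / 2)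
  have h4 := hk (-(π / 2))
  rw [cos_zero, sin_zero] at h1
  rw [cos_pi, sin_pi] at h2
  rw [cos_pi_div_two, sin_pi_div_two] at h3
  rw [cos_neg, sin_neg, cos_pi_div_two, sin_pi_div_two] at h4
  have g1 := hb 0
  have g2 := hb π
  have g3 := hb (π / 2)
  have g4 := hb (-(π / 2))
  have f1 := abs_le.1 hc1
  have f2 := abs_le.1 hc2
  rw [Finset.mem_product, Finset.mem_Icc, Finset.mem_Icc]
  refine ⟨⟨Int.ceil_le.2 ?_, Int.le_floor.2 ?_⟩, ⟨Int.ceil_le.2 ?_, Int.le_floor.2 ?_⟩⟩ <;> linarith [f1.1, f1.2, f2.1, f2.2]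

theorem near2 {H : ℝ → ℝ} {v : ℝ × ℝ} {r : ℝ} (hr : 0 < r) (h : ∀ θ, r ≤ H θ + (v.1 * cos θ + v.2 * sin θ))
    {t : ℝ} (ht : 0 < t) (c : ℝ × ℝ) :
    ∃ d : ℚ × ℚ, (∀ θ, (c.1 - d.1) * cos θ + (c.2 - d.2) * sin θ ≤ t * H θ) ∧
      |(d.1 : ℝ) - c.1| ≤ t * (|v.1| + r) ∧ |(d.2 : ℝ) - c.2| ≤ t * (|v.2| + r) := by
  have key : ∀ (x y θ : ℝ), |x| ≤ t * r / 2 → |y| ≤ t * r / 2 →
      -(t * (v.1 * cos θ + v.2 * sin θ)) + (x * cos θ + y * sin θ) ≤ t * H θ := by
    intro x y θ hx hy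
    have h1 : x * cos θ ≤ |x| := by
      calc x * cos θ ≤ |x * cos θ| := le_abs_self _
        _ = |x| * |cos θ| := abs_mul _ _
        _ ≤ |x| * 1 := mul_le_mul_of_nonneg_left (abs_cos_le_one θ) (abs_nonneg _)
        _ = |x| := mul_one _
    have h2 : y * sin θ ≤ |y| := by
      calc y * sin θ ≤ |y * sin θ| := le_abs_self _
        _ = |y| * |sin θ| := abs_mul _ _
        _ ≤ |y| * 1 := mul_le_mul_of_nonneg_left (abs_sin_le_one θ) (abs_nonneg _)
        _ = |y| := mul_one _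
    have h3 : t * r ≤ t * (H θ + (v.1 * cos θ + v.2 * sin θ)) := mul_le_mul_of_nonneg_left (h θ) ht.le
    linarith
  have htr : 0 < t * r / 2 := by positivity
  obtain ⟨d1, h1, h1'⟩ := exists_rat_btwn (show c.1 + t * v.1 < c.1 + t * v.1 + t * r / 2 by linarith)
  obtain ⟨d2, h2, h2'⟩ := exists_rat_btwn (show c.2 + t * v.2 < c.2 + t * v.2 + t * r / 2 by linarith)
  have habs : ∀ x y z : ℝ, y + t * z < x → x < y + t * z + t * r / 2 → |x - y| ≤ t * (|z| + r) := by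
    intro x y z h3 h4
    have h5 : t * z ≤ t * |z| := mul_le_mul_of_nonneg_left (le_abs_self z) ht.le
    have h6 : -(t * |z|) ≤ t * z := by
      have := mul_le_mul_of_nonneg_left (neg_abs_le z) ht.le
      linarith
    rw [abs_le]
    constructor <;> linarith
  refine ⟨(d1, d2), fun θ => ?_, habs _ _ _ h1 h1', habs _ _ _ h2 h2'⟩
  have h3 := key (c.1 + t * v.1 - d1) (c.2 + t * v.2 - d2) θ (abs_le.2 ⟨by linarith, by linarith⟩) (abs_le.2 ⟨by linarith, by linarith⟩)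
  simp only
  linarith

theorem cntc_eq {H : ℝ → ℝ} {c : ℝ × ℝ} {R : ℝ} {B : Finset (ℤ × ℤ)} (h : ∀ k : ℤ × ℤ,
      (∀ θ : ℝ, ((k.1 : ℝ) - c.1) * cos θ + ((k.2 : ℝ) - c.2) * sin θ ≤ R * H θ) → k ∈ B)
    [∀ k : ℤ × ℤ, Decidable (∀ θ : ℝ, ((k.1 : ℝ) - c.1) * cos θ + ((k.2 : ℝ) - c.2) * sin θ ≤ R * H θ)] :
    cntc H c R = ∑ k ∈ B, (if (∀ θ : ℝ, ((k.1 : ℝ) - c.1) * cos θ + ((k.2 : ℝ) - c.2) * sin θ ≤ R * H θ) then (1 : ℝ) else 0) := by
  unfold cntc
  rw [Nat.subtype_card (B.filter fun k : ℤ × ℤ =>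
    ∀ θ : ℝ, ((k.1 : ℝ) - c.1) * cos θ + ((k.2 : ℝ) - c.2) * sin θ ≤ R * H θ)]
  · rw [Finset.sum_boole]
  · intro k
    rw [Finset.mem_filter]
    exact ⟨fun h => h.2, fun h' => ⟨h k h', h'⟩⟩

theorem cntc_meas (H : ℝ → ℝ) (c : ℝ × ℝ) : Measurable (fun R => cntc H c R) := by
  classical
  choose B hB using fun N : ℕ => cntc_box H c N
  refine measurable_of_tendsto_metrizable (f := fun N R => ∑ k ∈ B N, (if (∀ θ : ℝ, ((k.1 : ℝ) - c.1) * cos θ +
    ((k.2 : ℝ) - c.2) * sin θ ≤ R * H θ) then (1 : ℝ) else 0)) (fun N => ?_) ?_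
  · refine Finset.measurable_sum _ fun k _ => ?_
    refine Measurable.ite ?_ measurable_const measurable_const
    have hc : {R : ℝ | ∀ θ : ℝ, ((k.1 : ℝ) - c.1) * cos θ + ((k.2 : ℝ) - c.2) * sin θ ≤ R * H θ} =
        ⋂ θ : ℝ, {R : ℝ | ((k.1 : ℝ) - c.1) * cos θ + ((k.2 : ℝ) - c.2) * sin θ ≤ R * H θ} := by
      ext x
      simp
    rw [hc]
    exact (isClosed_iInter fun θ => isClosed_le continuous_const
      (continuous_id.mul continuous_const)).measurableSet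
  · rw [tendsto_pi_nhds]
    intro R
    obtain ⟨N₀, hN₀⟩ := exists_nat_ge |R|
    refine tendsto_const_nhds.congr' ?_
    filter_upwards [eventually_ge_atTop N₀] with N hN
    have hR : |R| ≤ N := hN₀.trans (Nat.cast_le.2 hN)
    exact cntc_eq fun k hk => hB N R hR k hk

/-- the number of lattice points is continuous from above -/
theorem cntc_lim {H : ℝ → ℝ} {c : ℝ × ℝ} {t : ℕ → ℝ} {d : ℕ → ℝ × ℝ} (ht : Tendsto t atTop (𝓝 0))
    (hd : ∀ j θ, (c.1 - (d j).1) * cos θ + (c.2 - (d j).2) * sin θ ≤ t j * H θ)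
    (hd1 : Tendsto (fun j => (d j).1) atTop (𝓝 c.1)) (hd2 : Tendsto (fun j => (d j).2) atTop (𝓝 c.2))
    {K N : ℝ} {B : Finset (ℤ × ℤ)} (hB : ∀ c : ℝ × ℝ, |c.1| ≤ K → |c.2| ≤ K → ∀ R : ℝ, |R| ≤ N → ∀ k : ℤ × ℤ,
      (∀ θ : ℝ, ((k.1 : ℝ) - c.1) * cos θ + ((k.2 : ℝ) - c.2) * sin θ ≤ R * H θ) → k ∈ B)
    (hc1 : |c.1| ≤ K) (hc2 : |c.2| ≤ K) (hdK1 : ∀ j, |(d j).1| ≤ K) (hdK2 : ∀ j, |(d j).2| ≤ K) {R : ℝ} (hR : |R| ≤ N)
    (hRt : ∀ j, |R + t j| ≤ N) : Tendsto (fun j => cntc H (d j) (R + t j)) atTop (𝓝 (cntc H c R)) := by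
  classical
  have h1 : ∀ j, cntc H (d j) (R + t j) = ∑ k ∈ B, (if (∀ θ : ℝ, ((k.1 : ℝ) - (d j).1) * cos θ +
      ((k.2 : ℝ) - (d j).2) * sin θ ≤ (R + t j) * H θ) then (1 : ℝ) else 0) := fun j =>
    cntc_eq fun k hk => hB (d j) (hdK1 j) (hdK2 j) _ (hRt j) k hk
  simp_rw [h1]
  rw [cntc_eq (c := c) (R := R) (B := B) fun k hk => hB c hc1 hc2 R hR k hk]
  refine tendsto_finsetSum _ fun k _ => ?_
  by_cases hk : ∀ θ : ℝ, ((k.1 : ℝ) - c.1) * cos θ + ((k.2 : ℝ) - c.2) * sin θ ≤ R * H θ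
  · rw [if_pos hk]
    refine tendsto_const_nhds.congr fun j => ?_
    rw [if_pos fun θ => ?_]
    have h2 := hk θ
    have h3 := hd j θ
    nlinarith
  · rw [if_neg hk]
    push Not at hk
    obtain ⟨θ, hθ⟩ := hk
    refine tendsto_const_nhds.congr' ?_
    have h2 : Tendsto (fun j => ((k.1 : ℝ) - (d j).1) * cos θ + ((k.2 : ℝ) - (d j).2) * sin θ) atTop
        (𝓝 (((k.1 : ℝ) - c.1) * cos θ + ((k.2 : ℝ) - c.2) * sin θ)) :=
      ((tendsto_const_nhds.sub hd1).mul_const _).add ((tendsto_const_nhds.sub hd2).mul_const _)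
    have h3 : Tendsto (fun j => (R + t j) * H θ) atTop (𝓝 ((R + 0) * H θ)) :=
      (tendsto_const_nhds.add ht).mul_const _
    rw [add_zero] at h3
    filter_upwards [h3.eventually_lt h2 hθ] with j hj
    rw [if_neg]
    intro h4
    exact absurd (h4 θ) (not_le.2 hj)

/-- the normalized error term -/
noncomputable def G (H : ℝ → ℝ) (p : ℕ) (c : ℝ × ℝ) (R : ℝ) : ℝ := ((cntc H c R - area H * R ^ 2) / sqrt R) ^ p

theorem G_meas (H : ℝ → ℝ) (p : ℕ) (c : ℝ × ℝ) : Measurable (G H p c) := by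
  have h2 : Measurable fun R : ℝ => area H * R ^ 2 := by fun_prop
  exact (((cntc_meas H c).sub h2).div Real.continuous_sqrt.measurable).pow_const _

/-- approximation by rational data -/
theorem approx {H : ℝ → ℝ} (hH : ContDiff ℝ 2 H) (hp : Function.Periodic H (2 * π)) (hrho : ∀ θ, 0 < H θ + deriv (deriv H) θ) (p : ℕ)
    {X : ℝ} (hX : 1 ≤ X) (c : ℝ × ℝ) : ∃ (q : ℕ → ℚ) (d : ℕ → ℚ × ℚ), (∀ j, X ≤ q j) ∧
      Tendsto (fun j => (q j : ℝ)⁻¹ * ∫ R in Icc (q j : ℝ) (2 * q j), G H p (((d j).1 : ℝ), ((d j).2 : ℝ)) R) atTop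
        (𝓝 (X⁻¹ * ∫ R in Icc X (2 * X), G H p c R)) := by
  classical
  obtain ⟨v, r, hr0, hv⟩ := disc hH hp hrho
  set t : ℕ → ℝ := fun j => 1 / (2 * ((j : ℝ) + 1)) with htdef
  have ht0 : ∀ j, 0 < t j := fun j => by rw [htdef]; positivity
  have ht2 : ∀ j, t j ≤ 1 / 2 := fun j => by
    rw [htdef]
    simp only
    rw [div_le_div_iff₀ (by positivity) (by norm_num)]
    have : (0 : ℝ) ≤ j := Nat.cast_nonneg j
    linarith
  have htt : Tendsto t atTop (𝓝 0) := by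
    have h1 := (tendsto_one_div_add_atTop_nhds_zero_nat (𝕜 := ℝ)).const_mul (1 / 2 : ℝ)
    rw [mul_zero] at h1
    refine h1.congr fun j => ?_
    rw [htdef]
    simp only
    field_simp
  choose d hd hdc1 hdc2 using fun j => near2 hr0 hv (ht0 j) c
  choose q hq1 hq2 using fun j => exists_rat_btwn (show X < X + t j by linarith [ht0 j])
  have hX0 : 0 < X := by linarith
  refine ⟨q, d, fun j => (hq1 j).le, ?_⟩
  -- convergence of the centres
  have hconv : ∀ (x : ℕ → ℝ) (y z : ℝ), (∀ j, |x j - y| ≤ t j * (|z| + r)) → Tendsto x atTop (𝓝 y) := by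
    intro x y z h
    rw [tendsto_iff_norm_sub_tendsto_zero]
    have h1 := htt.mul_const (|z| + r)
    rw [zero_mul] at h1
    exact squeeze_zero (fun j => norm_nonneg _) (fun j => by rw [Real.norm_eq_abs]; exact h j) h1
  have hd1 := hconv _ _ _ hdc1
  have hd2 := hconv _ _ _ hdc2
  set K : ℝ := |c.1| + |c.2| + |v.1| + |v.2| + r with hK
  have hc1 : |c.1| ≤ K := by
    have := abs_nonneg c.2; have := abs_nonneg v.1; have := abs_nonneg v.2; linarith
  have hc2 : |c.2| ≤ K := by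
    have := abs_nonneg c.1; have := abs_nonneg v.1; have := abs_nonneg v.2; linarith
  have hbd : ∀ (x y z : ℝ) (j : ℕ), |x - y| ≤ t j * (|z| + r) → |y| + |z| + r ≤ K → |x| ≤ K := by
    intro x y z j h1 h2
    have h3 : t j * (|z| + r) ≤ 1 * (|z| + r) :=
      mul_le_mul_of_nonneg_right (by linarith [ht2 j]) (by positivity)
    have h4 : |x| ≤ |x - y| + |y| := by
      calc |x| = |(x - y) + y| := by ring_nf
        _ ≤ |x - y| + |y| := abs_add_le _ _
    linarith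
  have hdK1 : ∀ j, |((d j).1 : ℝ)| ≤ K := fun j => hbd _ _ _ j (hdc1 j) (by
    have := abs_nonneg c.2; have := abs_nonneg v.2; linarith)
  have hdK2 : ∀ j, |((d j).2 : ℝ)| ≤ K := fun j => hbd _ _ _ j (hdc2 j) (by
    have := abs_nonneg c.1; have := abs_nonneg v.1; linarith)
  obtain ⟨B, hB⟩ := cntc_box' H K (3 * X + 1)
  -- the integrals
  have hint : ∀ j, ∫ R in Icc (q j : ℝ) (2 * q j), G H p (((d j).1 : ℝ), ((d j).2 : ℝ)) R =
      ∫ R in Icc (X / 2) (3 * X), (Icc ((q j : ℝ) - t j) (2 * q j - t j)).indicator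
        (fun R => G H p (((d j).1 : ℝ), ((d j).2 : ℝ)) (R + t j)) R := by
    intro j
    have h1 := hq1 j
    have h2 := hq2 j
    have h3 := ht2 j
    have h4 := ht0 j
    rw [setIntegral_indicator measurableSet_Icc, Set.inter_eq_right.2 (Icc_subset_Icc (by linarith) (by linarith)),
      shift_int (fun R => G H p (((d j).1 : ℝ), ((d j).2 : ℝ)) R) (by linarith) (t j)]
    congr 3 <;> ring
  have hint' : ∫ R in Icc X (2 * X), G H p c R =
      ∫ R in Icc (X / 2) (3 * X), (Icc X (2 * X)).indicator (fun R => G H p c R) R := by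
    rw [setIntegral_indicator measurableSet_Icc, Set.inter_eq_right.2 (Icc_subset_Icc (by linarith) (by linarith))]
  simp_rw [hint, hint']
  have hqX : Tendsto (fun j => (q j : ℝ)) atTop (𝓝 X) := by
    have h1 := (tendsto_const_nhds (x := X)).add htt
    rw [add_zero] at h1
    exact tendsto_of_tendsto_of_tendsto_of_le_of_le tendsto_const_nhds h1 (fun j => (hq1 j).le) (fun j => (hq2 j).le)
  refine (hqX.inv₀ hX0.ne').mul ?_
  refine tendsto_integral_of_dominated_convergence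
    (fun _ => ((B.card + |area H| * (3 * X + 1) ^ 2) / sqrt (X / 2)) ^ p) (fun j => ?_) ?_ (fun j => ?_) ?_
  · exact (((G_meas H p _).comp (measurable_id.add_const _)).indicator measurableSet_Icc).aestronglyMeasurable
  · exact integrableOn_const (by rw [Real.volume_Icc]; exact ENNReal.ofReal_ne_top)
  · refine (ae_restrict_iff' measurableSet_Icc).2 (Eventually.of_forall fun R hR => ?_)
    refine (norm_indicator_le_norm_self _ _).trans ?_
    have h3 := ht2 j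
    have h4 := ht0 j
    have hR1 := hR.1
    have hR2 := hR.2
    simp only [G]
    rw [norm_pow, Real.norm_eq_abs, abs_div, abs_of_nonneg (Real.sqrt_nonneg _)]
    refine pow_le_pow_left₀ (by positivity) (div_le_div₀ (by positivity) ?_ (Real.sqrt_pos.2 (by linarith))
      (Real.sqrt_le_sqrt (by linarith))) _
    refine (abs_sub _ _).trans (add_le_add ?_ ?_)
    · rw [cntc_eq (B := B) fun k hk => hB _ (hdK1 j) (hdK2 j) _ (by rw [abs_le]; constructor <;> linarith) k hk,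
        abs_of_nonneg (Finset.sum_nonneg fun k _ => by split_ifs <;> norm_num), Finset.sum_boole]
      exact_mod_cast Finset.card_filter_le _ _
    · rw [abs_mul, abs_pow]
      refine mul_le_mul_of_nonneg_left (pow_le_pow_left₀ (abs_nonneg _) ?_ 2) (abs_nonneg _)
      rw [abs_le]
      constructor <;> linarith
  · have hfin : ∀ᵐ R : ℝ, R ∉ ({X, 2 * X} : Set ℝ) := by
      rw [ae_iff]
      simp only [not_not]
      exact (Set.toFinite ({X, 2 * X} : Set ℝ)).measure_zero _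
    filter_upwards [ae_restrict_of_ae hfin, ae_restrict_mem measurableSet_Icc] with R hR hRI
    have hR1 := hRI.1
    have hR2 := hRI.2
    simp only [mem_insert_iff, mem_singleton_iff, not_or] at hR
    have hlim : Tendsto (fun j => G H p (((d j).1 : ℝ), ((d j).2 : ℝ)) (R + t j)) atTop (𝓝 (G H p c R)) := by
      have h1 := cntc_lim (H := H) (c := c) (d := fun j => (((d j).1 : ℝ), ((d j).2 : ℝ))) htt hd hd1 hd2 hB hc1 hc2
        hdK1 hdK2 (R := R) (by rw [abs_le]; constructor <;> linarith)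
        (fun j => by
          have h3 := ht2 j
          have h4 := ht0 j
          rw [abs_le]
          constructor <;> linarith)
      have h2 : Tendsto (fun j => R + t j) atTop (𝓝 R) := by
        have := (tendsto_const_nhds (x := R)).add htt
        rwa [add_zero] at this
      exact ((h1.sub ((h2.pow 2).const_mul _)).div ((Real.continuous_sqrt.tendsto R).comp h2)
        (Real.sqrt_pos.2 (by linarith)).ne').pow p
    rcases lt_or_gt_of_ne hR.1 with h | h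
    · -- `R < X`
      rw [indicator_of_notMem (fun h' => absurd h'.1 (not_le.2 h))]
      refine tendsto_const_nhds.congr' ?_
      have h1 : Tendsto (fun j => X - t j) atTop (𝓝 (X - 0)) := tendsto_const_nhds.sub htt
      rw [sub_zero] at h1
      filter_upwards [h1.eventually_const_lt h] with j hj
      rw [indicator_of_notMem]
      intro h'
      have := h'.1
      have := hq1 j
      linarith
    · rcases lt_or_gt_of_ne hR.2 with h' | h'
      · -- `X < R < 2 * X`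
        rw [indicator_of_mem (show R ∈ Icc X (2 * X) from ⟨h.le, h'.le⟩)]
        refine hlim.congr' ?_
        have h1 : Tendsto (fun j => 2 * X - t j) atTop (𝓝 (2 * X - 0)) := tendsto_const_nhds.sub htt
        rw [sub_zero] at h1
        filter_upwards [h1.eventually_const_lt h'] with j hj
        rw [indicator_of_mem]
        have h2 := hq1 j
        have h3 := hq2 j
        exact ⟨by linarith, by linarith⟩
      · -- `2 * X < R`
        rw [indicator_of_notMem (fun h'' => absurd h''.2 (not_le.2 h'))]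
        refine tendsto_const_nhds.congr' ?_
        have h1 : Tendsto (fun j => 2 * X + t j) atTop (𝓝 (2 * X + 0)) := tendsto_const_nhds.add htt
        rw [add_zero] at h1
        filter_upwards [h1.eventually_lt_const h'] with j hj
        rw [indicator_of_notMem]
        intro h''
        have := h''.2
        have := hq2 j
        linarith

/-- C6a: rational centres and radii are enough -/
theorem rat_lim {H : ℝ → ℝ} (hH : ContDiff ℝ 2 H) (hp : Function.Periodic H (2 * π)) (hrho : ∀ θ, 0 < H θ + deriv (deriv H) θ) (p : ℕ) :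
    (∃ m : ℝ, ∀ ε : ℝ, 0 < ε → ∃ X₀ : ℝ, 1 ≤ X₀ ∧ ∀ X : ℝ, X₀ ≤ X → ∀ c : ℝ × ℝ,
      |X⁻¹ * (∫ R in Icc X (2 * X), ((cntc H c R - area H * R ^ 2) / sqrt R) ^ p) - m| ≤ ε) ↔
    (∀ n : ℕ, ∃ X₀ : ℕ, ∀ X Y : ℚ, ((X₀ : ℚ) + 1 ≤ X) → ((X₀ : ℚ) + 1 ≤ Y) → ∀ c d : ℚ × ℚ,
      |(X : ℝ)⁻¹ * (∫ R in Icc (X : ℝ) (2 * X), ((cntc H ((c.1 : ℝ), (c.2 : ℝ)) R - area H * R ^ 2) / sqrt R) ^ p) -
        (Y : ℝ)⁻¹ * (∫ R in Icc (Y : ℝ) (2 * Y), ((cntc H ((d.1 : ℝ), (d.2 : ℝ)) R - area H * R ^ 2) / sqrt R) ^ p)| ≤ 1 / ((n : ℝ) + 1)) := by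
  constructor
  · rintro ⟨m, hm⟩ n
    obtain ⟨X₀, -, h⟩ := hm (1 / (2 * ((n : ℝ) + 1))) (by positivity)
    obtain ⟨N, hN⟩ := exists_nat_ge X₀
    refine ⟨N, fun X Y hX hY c d => ?_⟩
    have hX' : (N : ℝ) + 1 ≤ X := by exact_mod_cast hX
    have hY' : (N : ℝ) + 1 ≤ Y := by exact_mod_cast hY
    have h1 := abs_le.1 (h X (by linarith) ((c.1 : ℝ), (c.2 : ℝ)))
    have h2 := abs_le.1 (h Y (by linarith) ((d.1 : ℝ), (d.2 : ℝ)))
    have h3 : 1 / ((n : ℝ) + 1) = 1 / (2 * ((n : ℝ) + 1)) + 1 / (2 * ((n : ℝ) + 1)) := by field_simp; norm_num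
    rw [h3, abs_le]
    constructor <;> linarith [h1.1, h1.2, h2.1, h2.2]
  · intro h
    set M : ℝ → ℝ × ℝ → ℝ := fun X c => X⁻¹ * ∫ R in Icc X (2 * X), G H p c R with hM
    have h' : ∀ n : ℕ, ∃ X₀ : ℕ, ∀ X Y : ℚ, ((X₀ : ℚ) + 1 ≤ X) → ((X₀ : ℚ) + 1 ≤ Y) → ∀ c d : ℚ × ℚ,
        |M X ((c.1 : ℝ), (c.2 : ℝ)) - M Y ((d.1 : ℝ), (d.2 : ℝ))| ≤ 1 / ((n : ℝ) + 1) := h
    have hcau : CauchySeq (fun k : ℕ => M k (0, 0)) := by
      rw [Metric.cauchySeq_iff]
      intro ε hε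
      obtain ⟨n, hn⟩ := exists_nat_one_div_lt hε
      obtain ⟨X₀, hX₀⟩ := h' n
      refine ⟨X₀ + 1, fun a ha b hb => ?_⟩
      have h1 := hX₀ a b (by exact_mod_cast ha) (by exact_mod_cast hb) (0, 0) (0, 0)
      rw [Real.dist_eq]
      refine lt_of_le_of_lt ?_ hn
      simpa using h1
    obtain ⟨m, hm⟩ := cauchySeq_tendsto_of_complete hcau
    refine ⟨m, fun ε hε => ?_⟩
    obtain ⟨n, hn⟩ := exists_nat_one_div_lt hε
    obtain ⟨X₀, hX₀⟩ := h' n
    have hrat : ∀ X : ℚ, ((X₀ : ℚ) + 1 ≤ X) → ∀ c : ℚ × ℚ, |M X ((c.1 : ℝ), (c.2 : ℝ)) - m| ≤ 1 / ((n : ℝ) + 1) := by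
      intro X hX c
      have h1 : Tendsto (fun k : ℕ => |M X ((c.1 : ℝ), (c.2 : ℝ)) - M k (0, 0)|) atTop
          (𝓝 |M X ((c.1 : ℝ), (c.2 : ℝ)) - m|) := (tendsto_const_nhds.sub hm).abs
      refine le_of_tendsto h1 ?_
      filter_upwards [eventually_ge_atTop (X₀ + 1)] with k hk
      have h2 := hX₀ X k hX (by exact_mod_cast hk) c (0, 0)
      simpa using h2
    refine ⟨X₀ + 1, by linarith [(Nat.cast_nonneg X₀ : (0 : ℝ) ≤ X₀)], fun X hX c => ?_⟩
    have hX1 : 1 ≤ X := by linarith [(Nat.cast_nonneg X₀ : (0 : ℝ) ≤ X₀)]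
    obtain ⟨q, d, hq, hlim⟩ := approx hH hp hrho p hX1 c
    have h1 : Tendsto (fun j => |M (q j) (((d j).1 : ℝ), ((d j).2 : ℝ)) - m|) atTop (𝓝 |M X c - m|) :=
      (hlim.sub_const m).abs
    refine (le_of_tendsto h1 (Eventually.of_forall fun j => ?_)).trans hn.le
    refine hrat (q j) ?_ (d j)
    have := hq j
    have h3 : ((X₀ : ℝ) + 1) ≤ q j := by linarith
    exact_mod_cast h3

end Pool.Agent.Helper43.AM
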