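import Pool.Agent.Helper22.AM.Defs
import Pool.Agent.Helper22.OV.Shift

/-!
# AM, block M6a: rational centres and radii are enough for the moments
-/

open MeasureTheory Real Set Filter Topology

set_option autoImplicit false

namespace Pool.Agent.Helper43.AM

open Pool.Agent.Helper22.AE
open Pool.Agent.Helper22.AC (cntc)
open Pool.Agent.Helper22.OV (shf exists_shift)

/-! ### From Helper11/AD/A11 -/

/-- the lattice points of a domain are finitely many, uniformly for bounded radii -/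
theorem cntc_box (H : ℝ → ℝ) (c : ℝ × ℝ) (N : ℝ) : ∃ B : Finset (ℤ × ℤ), ∀ R : ℝ, |R| ≤ N → ∀ k : ℤ × ℤ,
    (∀ θ : ℝ, ((k.1 : ℝ) - c.1) * cos θ + ((k.2 : ℝ) - c.2) * sin θ ≤ R * H θ) → k ∈ B := by
  refine ⟨(Finset.Icc ⌈c.1 - N * |H π|⌉ ⌊c.1 + N * |H 0|⌋) ×ˢ
    (Finset.Icc ⌈c.2 - N * |H (-(π / 2))|⌉ ⌊c.2 + N * |H (π / 2)|⌋), fun R hR k hk => ?_⟩
  have hb : ∀ x : ℝ, R * H x ≤ N * |H x| := fun x =>
    (le_abs_self _).trans ((abs_mul R (H x)).le.trans (mul_le_mul_of_nonneg_right hR (abs_nonneg _)))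
  have h1 := hk 0
  have h2 := hk π
  have h3 := hk (π / 2)
  have h4 := hk (-(π / 2))
  rw [cos_zero, sin_zero] at h1
  rw [cos_pi, sin_pi] at h2
  rw [cos_pi_div_two, sin_pi_div_two] at h3
  rw [cos_neg, sin_neg, cos_pi_div_two, sin_pi_div_two] at h4
  have g1 := hb 0
  have g2 := hb π
  have g3 := hb (π / 2)
  have g4 := hb (-(π / 2))
  rw [Finset.mem_product, Finset.mem_Icc, Finset.mem_Icc]
  refine ⟨⟨Int.ceil_le.2 ?_, Int.le_floor.2 ?_⟩, ⟨Int.ceil_le.2 ?_, Int.le_floor.2 ?_⟩⟩ <;> linarith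

theorem cntc_fin (H : ℝ → ℝ) (c : ℝ × ℝ) (R : ℝ) :
    Finite {k : ℤ × ℤ // ∀ θ : ℝ, ((k.1 : ℝ) - c.1) * cos θ + ((k.2 : ℝ) - c.2) * sin θ ≤ R * H θ} := by
  obtain ⟨B, hB⟩ := cntc_box H c |R|
  have hs : {k : ℤ × ℤ | ∀ θ : ℝ, ((k.1 : ℝ) - c.1) * cos θ + ((k.2 : ℝ) - c.2) * sin θ ≤ R * H θ} ⊆ (B : Set (ℤ × ℤ)) :=
    fun k hk => hB R le_rfl k hk
  exact ((B.finite_toSet).subset hs).to_subtype

/-- monotonicity -/
theorem cntc_mono {H : ℝ → ℝ} {c c' : ℝ × ℝ} {R R' : ℝ}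
    (h : ∀ θ, (c.1 - c'.1) * cos θ + (c.2 - c'.2) * sin θ ≤ (R' - R) * H θ) : cntc H c R ≤ cntc H c' R' := by
  unfold cntc
  have := cntc_fin H c' R'
  refine Nat.cast_le.2 (Nat.card_le_card_of_injective (fun k => ⟨k.1, fun θ => ?_⟩) ?_)
  · have h1 := k.2 θ
    have h2 := h θ
    nlinarith
  · intro a b hab
    exact Subtype.ext (by simpa using hab)

/-- the domain contains a disc around the point `-v` -/
theorem disc {H : ℝ → ℝ} (h2 : ContDiff ℝ 2 H) (hp : Function.Periodic H (2 * π)) (hr : ∀ θ, 0 < H θ + deriv (deriv H) θ) :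
    ∃ (v : ℝ × ℝ) (r : ℝ), 0 < r ∧ ∀ θ, r ≤ H θ + (v.1 * cos θ + v.2 * sin θ) := by
  obtain ⟨v, hv⟩ := exists_shift h2 hp hr
  obtain ⟨x, hx, hmin⟩ := isCompact_Icc.exists_isMinOn (Set.nonempty_Icc.2 two_pi_pos.le) hv.smooth.continuous.continuousOn
  refine ⟨v, shf H v x, hv.pos x, fun θ => ?_⟩
  obtain ⟨y, hy, hy'⟩ := hv.per.exists_mem_Ico₀ two_pi_pos θ
  have h3 : shf H v x ≤ shf H v y := hmin ⟨hy.1, hy.2.le⟩
  rw [← hy'] at h3
  exact h3

theorem near {H : ℝ → ℝ} {v : ℝ × ℝ} {r : ℝ} (hr : 0 < r) (h : ∀ θ, r ≤ H θ + (v.1 * cos θ + v.2 * sin θ))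
    {t : ℝ} (ht : 0 < t) (c : ℝ × ℝ) :
    (∃ d : ℚ × ℚ, ∀ θ, (c.1 - d.1) * cos θ + (c.2 - d.2) * sin θ ≤ t * H θ) ∧
      ∃ d : ℚ × ℚ, ∀ θ, (d.1 - c.1) * cos θ + (d.2 - c.2) * sin θ ≤ t * H θ := by
  have key : ∀ (x y θ : ℝ), |x| ≤ t * r / 2 → |y| ≤ t * r / 2 →
      -(t * (v.1 * cos θ + v.2 * sin θ)) + (x * cos θ + y * sin θ) ≤ t * H θ := by
    intro x y θ hx hy
    have h1 : x * cos θ ≤ |x| := by
      calc x * cos θ ≤ |x * cos θ| := le_abs_self _
        _ = |x| * |cos θ| := abs_mul _ _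
        _ ≤ |x| * 1 := mul_le_mul_of_nonneg_left (abs_cos_le_one θ) (abs_nonneg _)
        _ = |x| := mul_one _
    have h2 : y * sin θ ≤ |y| := by
      calc y * sin θ ≤ |y * sin θ| := le_abs_self _
        _ = |y| * |sin θ| := abs_mul _ _
        _ ≤ |y| * 1 := mul_le_mul_of_nonneg_left (abs_sin_le_one θ) (abs_nonneg _)
        _ = |y| := mul_one _
    have h3 : t * r ≤ t * (H θ + (v.1 * cos θ + v.2 * sin θ)) := mul_le_mul_of_nonneg_left (h θ) ht.le
    linarith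
  have htr : 0 < t * r / 2 := by positivity
  constructor
  · obtain ⟨d1, h1, h1'⟩ := exists_rat_btwn (show c.1 + t * v.1 < c.1 + t * v.1 + t * r / 2 by linarith)
    obtain ⟨d2, h2, h2'⟩ := exists_rat_btwn (show c.2 + t * v.2 < c.2 + t * v.2 + t * r / 2 by linarith)
    refine ⟨(d1, d2), fun θ => ?_⟩
    have h3 := key (c.1 + t * v.1 - d1) (c.2 + t * v.2 - d2) θ (abs_le.2 ⟨by linarith, by linarith⟩) (abs_le.2 ⟨by linarith, by linarith⟩)
    simp only
    linarith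
  · obtain ⟨d1, h1, h1'⟩ := exists_rat_btwn (show c.1 - t * v.1 < c.1 - t * v.1 + t * r / 2 by linarith)
    obtain ⟨d2, h2, h2'⟩ := exists_rat_btwn (show c.2 - t * v.2 < c.2 - t * v.2 + t * r / 2 by linarith)
    refine ⟨(d1, d2), fun θ => ?_⟩
    have h3 := key (d1 - (c.1 - t * v.1)) (d2 - (c.2 - t * v.2)) θ (abs_le.2 ⟨by linarith, by linarith⟩) (abs_le.2 ⟨by linarith, by linarith⟩)
    simp only
    linarith

/-! ### Integrability -/

/-- the error term -/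
noncomputable def E (H : ℝ → ℝ) (c : ℝ × ℝ) (R : ℝ) : ℝ := cntc H c R - area H * R ^ 2

theorem E_int (H : ℝ → ℝ) (c : ℝ × ℝ) (J : ℕ) (a b : ℝ) : IntegrableOn (fun R => |E H c R| ^ (2 * J)) (Icc a b) := by
  classical
  obtain ⟨B, hB⟩ := cntc_box H c (max |a| |b|)
  set g : ℝ → ℝ := fun R => |∑ k ∈ B, (if (∀ θ : ℝ, ((k.1 : ℝ) - c.1) * cos θ + ((k.2 : ℝ) - c.2) * sin θ ≤ R * H θ)
    then (1 : ℝ) else 0) - area H * R ^ 2| ^ (2 * J) with hg
  have hR : ∀ R ∈ Icc a b, |R| ≤ max |a| |b| := fun R hR => by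
    rcases abs_cases R with ⟨h, -⟩ | ⟨h, -⟩
    · rw [h]
      exact hR.2.trans ((le_abs_self b).trans (le_max_right _ _))
    · rw [h]
      have := neg_abs_le a
      have h3 := le_max_left |a| |b|
      have h4 := hR.1
      linarith
  have heq : EqOn g (fun R => |E H c R| ^ (2 * J)) (Icc a b) := by
    intro R hR'
    simp only [hg, E]
    congr 3
    unfold cntc
    rw [Nat.subtype_card (B.filter fun k : ℤ × ℤ =>
      ∀ θ : ℝ, ((k.1 : ℝ) - c.1) * cos θ + ((k.2 : ℝ) - c.2) * sin θ ≤ R * H θ)]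
    · rw [Finset.sum_boole]
    · intro k
      rw [Finset.mem_filter]
      exact ⟨fun h => h.2, fun h => ⟨hB R (hR R hR') k h, h⟩⟩
  have hgm : Measurable g := by
    have h1 : Measurable fun R : ℝ => ∑ k ∈ B, (if (∀ θ : ℝ, ((k.1 : ℝ) - c.1) * cos θ +
        ((k.2 : ℝ) - c.2) * sin θ ≤ R * H θ) then (1 : ℝ) else 0) := by
      refine Finset.measurable_sum _ fun k _ => ?_
      refine Measurable.ite ?_ measurable_const measurable_const
      have hc : {R : ℝ | ∀ θ : ℝ, ((k.1 : ℝ) - c.1) * cos θ + ((k.2 : ℝ) - c.2) * sin θ ≤ R * H θ} =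
          ⋂ θ : ℝ, {R : ℝ | ((k.1 : ℝ) - c.1) * cos θ + ((k.2 : ℝ) - c.2) * sin θ ≤ R * H θ} := by
        ext x
        simp
      rw [hc]
      exact (isClosed_iInter fun θ => isClosed_le continuous_const
        (continuous_id.mul continuous_const)).measurableSet
    have h2 : Measurable fun R : ℝ => area H * R ^ 2 := by fun_prop
    exact (continuous_abs.measurable.comp (h1.sub h2)).pow_const _
  refine IntegrableOn.congr_fun ?_ heq measurableSet_Icc
  refine Measure.integrableOn_of_bounded (M := (B.card + |area H| * (max |a| |b|) ^ 2) ^ (2 * J))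
    (by rw [Real.volume_Icc]; exact ENNReal.ofReal_ne_top) hgm.aestronglyMeasurable ?_
  refine (ae_restrict_iff' measurableSet_Icc).2 (Eventually.of_forall fun R hR' => ?_)
  rw [Real.norm_eq_abs, hg]
  simp only
  rw [abs_pow, abs_abs]
  refine pow_le_pow_left₀ (abs_nonneg _) ((abs_sub _ _).trans (add_le_add ?_ ?_)) _
  · rw [abs_of_nonneg (Finset.sum_nonneg fun k _ => by split_ifs <;> norm_num), Finset.sum_boole]
    exact_mod_cast Finset.card_filter_le _ _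
  · rw [abs_mul, abs_pow]
    exact mul_le_mul_of_nonneg_left (pow_le_pow_left₀ (abs_nonneg _) (hR R hR') 2) (abs_nonneg _)

/-! ### The two halves -/

theorem shift_integrable {f : ℝ → ℝ} {a b t : ℝ} (h : IntegrableOn f (Icc (a + t) (b + t))) :
    IntegrableOn (fun R => f (R + t)) (Icc a b) := by
  have h1 := ((measurePreserving_add_right (volume : Measure ℝ) t).integrableOn_comp_preimage
    (measurableEmbedding_addRight t) (f := f) (s := Icc (a + t) (b + t))).2 h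
  have h2 : (fun x => x + t) ⁻¹' Icc (a + t) (b + t) = Icc a b := by
    ext x
    simp [mem_Icc]
  rw [h2] at h1
  exact h1

theorem shift_int (f : ℝ → ℝ) {a b : ℝ} (hab : a ≤ b) (t : ℝ) :
    ∫ R in Icc a b, f (R + t) = ∫ R in Icc (a + t) (b + t), f R := by
  rw [integral_Icc_eq_integral_Ioc, integral_Icc_eq_integral_Ioc, ← intervalIntegral.integral_of_le hab,
    ← intervalIntegral.integral_of_le (by linarith), intervalIntegral.integral_comp_add_right]

theorem up {H : ℝ → ℝ} {J C : ℕ} (hC : ∀ X : ℚ, 1 ≤ X → ∀ c : ℚ × ℚ,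
      ∫ R in Icc (X : ℝ) (2 * X), |E H ((c.1 : ℝ), (c.2 : ℝ)) R| ^ (2 * J) ≤ C * (X : ℝ) ^ (J + 1))
    {X t : ℝ} (hX : 1 ≤ X) (ht : 0 < t) (ht1 : t ≤ 1) (d : ℚ × ℚ) :
    ∫ R in Icc X (2 * X), |E H ((d.1 : ℝ), (d.2 : ℝ)) (R + t)| ^ (2 * J) ≤ C * 2 ^ (J + 1) * X ^ (J + 1) := by
  obtain ⟨q, hq1, hq2⟩ := exists_rat_btwn (show X + t / 2 < X + t by linarith)
  rw [shift_int (fun R => |E H ((d.1 : ℝ), (d.2 : ℝ)) R| ^ (2 * J)) (by linarith) t]
  have hq : (1 : ℚ) ≤ q := by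
    have : (1 : ℝ) ≤ q := by linarith
    exact_mod_cast this
  calc ∫ R in Icc (X + t) (2 * X + t), |E H ((d.1 : ℝ), (d.2 : ℝ)) R| ^ (2 * J)
      ≤ ∫ R in Icc (q : ℝ) (2 * q), |E H ((d.1 : ℝ), (d.2 : ℝ)) R| ^ (2 * J) := by
        refine setIntegral_mono_set (E_int _ _ _ _ _) (Eventually.of_forall fun R => by positivity)
          (LE.le.eventuallyLE (Icc_subset_Icc (by linarith) (by linarith)))
    _ ≤ C * (q : ℝ) ^ (J + 1) := hC q hq d
    _ ≤ C * (2 * X) ^ (J + 1) := by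
        refine mul_le_mul_of_nonneg_left (pow_le_pow_left₀ (by linarith) (by linarith) _) (Nat.cast_nonneg C)
    _ = C * 2 ^ (J + 1) * X ^ (J + 1) := by rw [mul_pow]; ring

theorem lo {H : ℝ → ℝ} {J C : ℕ} (hC : ∀ X : ℚ, 1 ≤ X → ∀ c : ℚ × ℚ,
      ∫ R in Icc (X : ℝ) (2 * X), |E H ((c.1 : ℝ), (c.2 : ℝ)) R| ^ (2 * J) ≤ C * (X : ℝ) ^ (J + 1))
    {X t : ℝ} (hX : 2 < X) (ht : 0 < t) (ht1 : t ≤ 1 / 2) (d : ℚ × ℚ) :
    ∫ R in Icc X (2 * X), |E H ((d.1 : ℝ), (d.2 : ℝ)) (R - t)| ^ (2 * J) ≤ C * (1 + 2 ^ (J + 1)) * X ^ (J + 1) := by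
  obtain ⟨q, hq1, hq2⟩ := exists_rat_btwn (show X / 2 < X - t by linarith)
  have hsh := shift_int (fun R => |E H ((d.1 : ℝ), (d.2 : ℝ)) R| ^ (2 * J)) (show X ≤ 2 * X by linarith) (-t)
  simp only [← sub_eq_add_neg] at hsh
  rw [hsh]
  have hq : (1 : ℚ) ≤ q := by
    have : (1 : ℝ) ≤ q := by linarith
    exact_mod_cast this
  have hq0 : (1 : ℝ) ≤ q := by linarith
  have h2q : (1 : ℚ) ≤ 2 * q := by linarith
  have hi : ∀ a b : ℝ, IntervalIntegrable (fun R => |E H ((d.1 : ℝ), (d.2 : ℝ)) R| ^ (2 * J)) volume a b := by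
    intro a b
    refine ⟨(E_int H ((d.1 : ℝ), (d.2 : ℝ)) J a b).mono_set Ioc_subset_Icc_self,
      (E_int H ((d.1 : ℝ), (d.2 : ℝ)) J b a).mono_set Ioc_subset_Icc_self⟩
  have h1 := hC q hq d
  have h2 := hC (2 * q) h2q d
  push_cast at h2
  rw [integral_Icc_eq_integral_Ioc, ← intervalIntegral.integral_of_le (by linarith)] at h1 h2
  calc ∫ R in Icc (X - t) (2 * X - t), |E H ((d.1 : ℝ), (d.2 : ℝ)) R| ^ (2 * J)
      ≤ ∫ R in Icc (q : ℝ) (2 * (2 * q)), |E H ((d.1 : ℝ), (d.2 : ℝ)) R| ^ (2 * J) := by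
        refine setIntegral_mono_set (E_int _ _ _ _ _) (Eventually.of_forall fun R => by positivity)
          (LE.le.eventuallyLE (Icc_subset_Icc (by linarith) (by linarith)))
    _ = (∫ R in (q : ℝ)..(2 * q), |E H ((d.1 : ℝ), (d.2 : ℝ)) R| ^ (2 * J)) +
          ∫ R in (2 * (q : ℝ))..(2 * (2 * q)), |E H ((d.1 : ℝ), (d.2 : ℝ)) R| ^ (2 * J) := by
        rw [intervalIntegral.integral_add_adjacent_intervals (hi _ _) (hi _ _),
          integral_Icc_eq_integral_Ioc, ← intervalIntegral.integral_of_le (by linarith)]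
    _ ≤ C * (q : ℝ) ^ (J + 1) + C * (2 * q) ^ (J + 1) := add_le_add h1 h2
    _ = C * (1 + 2 ^ (J + 1)) * (q : ℝ) ^ (J + 1) := by rw [mul_pow]; ring
    _ ≤ C * (1 + 2 ^ (J + 1)) * X ^ (J + 1) := by
        refine mul_le_mul_of_nonneg_left (pow_le_pow_left₀ (by linarith) (by linarith) _) (by positivity)

theorem pow_add3 {a b c : ℝ} (ha : 0 ≤ a) (hb : 0 ≤ b) (hc : 0 ≤ c) (n : ℕ) :
    (a + b + c) ^ n ≤ 4 ^ n * (a ^ n + b ^ n + c ^ n) := by
  have h1 := add_pow_le (add_nonneg ha hb) hc n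
  have h2 := add_pow_le ha hb n
  have h3 : (2 : ℝ) ^ (n - 1) ≤ 2 ^ n := pow_le_pow_right₀ (by norm_num) (Nat.sub_le n 1)
  have h4 : (1 : ℝ) ≤ 2 ^ n := one_le_pow₀ (by norm_num)
  have h5 : (0 : ℝ) ≤ 2 ^ (n - 1) := by positivity
  have h6 : (4 : ℝ) ^ n = 2 ^ n * 2 ^ n := by rw [← mul_pow]; norm_num
  have ha' := pow_nonneg ha n
  have hb' := pow_nonneg hb n
  have hc' := pow_nonneg hc n
  calc (a + b + c) ^ n ≤ 2 ^ (n - 1) * ((a + b) ^ n + c ^ n) := h1
    _ ≤ 2 ^ n * (2 ^ n * (a ^ n + b ^ n) + 2 ^ n * c ^ n) := by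
        refine mul_le_mul h3 (add_le_add (h2.trans ?_) ?_) (by positivity) (by positivity)
        · exact mul_le_mul_of_nonneg_right h3 (by positivity)
        · nlinarith
    _ = 4 ^ n * (a ^ n + b ^ n + c ^ n) := by rw [h6]; ring

/-- M6a: rational centres and radii are enough -/
theorem rat_mom {H : ℝ → ℝ} (hH : ContDiff ℝ 2 H) (hp : Function.Periodic H (2 * π)) (hrho : ∀ θ, 0 < H θ + deriv (deriv H) θ) (J : ℕ) :
    (∃ C : ℝ, ∀ X : ℝ, 1 ≤ X → ∀ c : ℝ × ℝ, ∫ R in Icc X (2 * X), |cntc H c R - area H * R ^ 2| ^ (2 * J) ≤ C * X ^ (J + 1)) ↔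
    (∃ C : ℕ, ∀ X : ℚ, 1 ≤ X → ∀ c : ℚ × ℚ, ∫ R in Icc (X : ℝ) (2 * X), |cntc H ((c.1 : ℝ), (c.2 : ℝ)) R - area H * R ^ 2| ^ (2 * J) ≤
      C * (X : ℝ) ^ (J + 1)) := by
  constructor
  · rintro ⟨C, hC⟩
    refine ⟨⌈C⌉₊, fun X hX c => ?_⟩
    have hX1 : (1 : ℝ) ≤ X := by exact_mod_cast hX
    exact (hC X hX1 _).trans (mul_le_mul_of_nonneg_right (Nat.le_ceil C) (by positivity))
  · rintro ⟨C, hC'⟩
    have hC : ∀ X : ℚ, 1 ≤ X → ∀ c : ℚ × ℚ,
      ∫ R in Icc (X : ℝ) (2 * X), |E H ((c.1 : ℝ), (c.2 : ℝ)) R| ^ (2 * J) ≤ C * (X : ℝ) ^ (J + 1) := hC'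
    obtain ⟨v, r, hr0, hv⟩ := disc hH hp hrho
    set A := |area H| with hA
    have hA0 : 0 ≤ A := abs_nonneg _
    refine ⟨4 ^ (2 * J) * (C * 2 ^ (J + 1) + (C * (1 + 2 ^ (J + 1)) + (16 * A) ^ (2 * J)) + (6 * A) ^ (2 * J)),
      fun X hX c => ?_⟩
    have hX0 : 0 < X := by linarith
    have hXJ : X ≤ X ^ (J + 1) := by
      calc X = X ^ 1 := (pow_one X).symm
        _ ≤ X ^ (J + 1) := pow_le_pow_right₀ hX (by omega)
    have ht : 0 < 1 / (2 * X) := by positivity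
    have ht1 : 1 / (2 * X) ≤ 1 / 2 := by
      rw [div_le_div_iff₀ (by positivity) (by norm_num)]
      linarith
    have htX : X * (1 / (2 * X)) = 1 / 2 := by
      field_simp
    set t := 1 / (2 * X) with htdef
    obtain ⟨⟨d, hd⟩, d', hd'⟩ := near hr0 hv ht c
    -- the lower half
    obtain ⟨L, hL0, hLi, hLint, hL⟩ : ∃ L : ℝ → ℝ, (∀ R, 0 ≤ L R) ∧
        IntegrableOn (fun R => L R ^ (2 * J)) (Icc X (2 * X)) ∧
        (∫ R in Icc X (2 * X), L R ^ (2 * J) ≤ (C * (1 + 2 ^ (J + 1)) + (16 * A) ^ (2 * J)) * X ^ (J + 1)) ∧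
        ∀ R ∈ Icc X (2 * X), -(L R + 6 * A) ≤ E H c R := by
      rcases le_or_gt X 2 with h2 | h2
      · refine ⟨fun _ => 16 * A, fun _ => by positivity, ?_, ?_, fun R hR => ?_⟩
        · exact integrableOn_const (by rw [Real.volume_Icc]; exact ENNReal.ofReal_ne_top)
        · rw [setIntegral_const, smul_eq_mul, Measure.real, Real.volume_Icc, ENNReal.toReal_ofReal (by linarith)]
          have h3 : 0 ≤ (16 * A) ^ (2 * J) := by positivity
          have h4 : 0 ≤ (C : ℝ) * (1 + 2 ^ (J + 1)) * X ^ (J + 1) := by positivity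
          nlinarith
        · have h3 : 0 ≤ cntc H c R := by unfold cntc; positivity
          have h4 : area H * R ^ 2 ≤ A * R ^ 2 := mul_le_mul_of_nonneg_right (le_abs_self _) (sq_nonneg _)
          have h5 : R ^ 2 ≤ 16 := by
            have := hR.1
            have := hR.2
            nlinarith
          have h6 : A * R ^ 2 ≤ A * 16 := mul_le_mul_of_nonneg_left h5 hA0
          simp only [E]
          linarith
      · refine ⟨fun R => |E H ((d'.1 : ℝ), (d'.2 : ℝ)) (R - t)|, fun _ => abs_nonneg _, ?_, ?_, fun R hR => ?_⟩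
        · have h4 := shift_integrable (t := -t) (E_int H ((d'.1 : ℝ), (d'.2 : ℝ)) J (X + -t) (2 * X + -t))
          simp only [← sub_eq_add_neg] at h4
          exact h4
        · refine (lo hC h2 ht ht1 d').trans (mul_le_mul_of_nonneg_right ?_ (by positivity))
          have : 0 ≤ (16 * A) ^ (2 * J) := by positivity
          linarith
        · have h3 : cntc H ((d'.1 : ℝ), (d'.2 : ℝ)) (R - t) ≤ cntc H c R :=
            cntc_mono fun θ => by
              have := hd' θ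
              simp only at this ⊢
              rw [show R - (R - t) = t by ring]
              exact this
          have h4 : -|E H ((d'.1 : ℝ), (d'.2 : ℝ)) (R - t)| ≤ E H ((d'.1 : ℝ), (d'.2 : ℝ)) (R - t) := neg_abs_le _
          have h5 : |area H * (R ^ 2 - (R - t) ^ 2)| ≤ 6 * A := by
            rw [abs_mul, ← hA, mul_comm]
            refine mul_le_mul_of_nonneg_right ?_ hA0
            have h6 : R * t ≤ 1 := by
              have := hR.2
              nlinarith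
            have h7 : 0 ≤ R * t := by
              have := hR.1
              have : 0 ≤ R := by linarith
              positivity
            rw [abs_le]
            constructor <;> nlinarith
          have h6 := (abs_le.1 h5)
          simp only [E] at h4 ⊢
          nlinarith [h6.1, h6.2]
    have hup : ∀ R ∈ Icc X (2 * X), E H c R ≤ |E H ((d.1 : ℝ), (d.2 : ℝ)) (R + t)| + 6 * A := by
      intro R hR
      have h3 : cntc H c R ≤ cntc H ((d.1 : ℝ), (d.2 : ℝ)) (R + t) :=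
        cntc_mono fun θ => by
          have := hd θ
          simp only at this ⊢
          rw [show R + t - R = t by ring]
          exact this
      have h4 : E H ((d.1 : ℝ), (d.2 : ℝ)) (R + t) ≤ |E H ((d.1 : ℝ), (d.2 : ℝ)) (R + t)| := le_abs_self _
      have h5 : |area H * ((R + t) ^ 2 - R ^ 2)| ≤ 6 * A := by
        rw [abs_mul, ← hA, mul_comm]
        refine mul_le_mul_of_nonneg_right ?_ hA0
        have h6 : R * t ≤ 1 := by
          have := hR.2
          nlinarith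
        have h7 : 0 ≤ R * t := by
          have := hR.1
          have : 0 ≤ R := by linarith
          positivity
        rw [abs_le]
        constructor <;> nlinarith
      have h6 := (abs_le.1 h5)
      simp only [E] at h4 ⊢
      nlinarith [h6.1, h6.2]
    have hmain : ∀ R ∈ Icc X (2 * X), |E H c R| ^ (2 * J) ≤
        4 ^ (2 * J) * (|E H ((d.1 : ℝ), (d.2 : ℝ)) (R + t)| ^ (2 * J) + L R ^ (2 * J) + (6 * A) ^ (2 * J)) := by
      intro R hR
      have h3 := hup R hR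
      have h4 := hL R hR
      have h5 : |E H c R| ≤ |E H ((d.1 : ℝ), (d.2 : ℝ)) (R + t)| + L R + 6 * A := by
        rw [abs_le]
        have h6 := hL0 R
        have h7 := abs_nonneg (E H ((d.1 : ℝ), (d.2 : ℝ)) (R + t))
        constructor <;> linarith
      exact (pow_le_pow_left₀ (abs_nonneg _) h5 _).trans
        (pow_add3 (abs_nonneg _) (hL0 R) (by positivity) _)
    have hi1 : IntegrableOn (fun R => |E H ((d.1 : ℝ), (d.2 : ℝ)) (R + t)| ^ (2 * J)) (Icc X (2 * X)) := by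
      exact shift_integrable (E_int H ((d.1 : ℝ), (d.2 : ℝ)) J (X + t) (2 * X + t))
    have hi3 : IntegrableOn (fun _ : ℝ => (6 * A) ^ (2 * J)) (Icc X (2 * X)) :=
      integrableOn_const (by rw [Real.volume_Icc]; exact ENNReal.ofReal_ne_top)
    calc ∫ R in Icc X (2 * X), |cntc H c R - area H * R ^ 2| ^ (2 * J)
        ≤ ∫ R in Icc X (2 * X), 4 ^ (2 * J) *
            (|E H ((d.1 : ℝ), (d.2 : ℝ)) (R + t)| ^ (2 * J) + L R ^ (2 * J) + (6 * A) ^ (2 * J)) := by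
          refine setIntegral_mono_on (E_int H c J X (2 * X)) (((hi1.add hLi).add hi3).const_mul _)
            measurableSet_Icc hmain
      _ = 4 ^ (2 * J) * ((∫ R in Icc X (2 * X), |E H ((d.1 : ℝ), (d.2 : ℝ)) (R + t)| ^ (2 * J)) +
            (∫ R in Icc X (2 * X), L R ^ (2 * J)) + X * (6 * A) ^ (2 * J)) := by
          have h3 : ∫ R in Icc X (2 * X), (|E H ((d.1 : ℝ), (d.2 : ℝ)) (R + t)| ^ (2 * J) + L R ^ (2 * J) + (6 * A) ^ (2 * J)) =
              (∫ R in Icc X (2 * X), (|E H ((d.1 : ℝ), (d.2 : ℝ)) (R + t)| ^ (2 * J) + L R ^ (2 * J))) +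
                ∫ _ in Icc X (2 * X), (6 * A) ^ (2 * J) := integral_add (hi1.add hLi) hi3
          rw [integral_const_mul, h3, integral_add hi1 hLi, setIntegral_const,
            smul_eq_mul, Measure.real, Real.volume_Icc, ENNReal.toReal_ofReal (by linarith)]
          congr 3
          ring
      _ ≤ 4 ^ (2 * J) * (C * 2 ^ (J + 1) * X ^ (J + 1) +
            (C * (1 + 2 ^ (J + 1)) + (16 * A) ^ (2 * J)) * X ^ (J + 1) + X ^ (J + 1) * (6 * A) ^ (2 * J)) := by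
          refine mul_le_mul_of_nonneg_left (add_le_add (add_le_add (up hC hX ht (by linarith) d) hLint) ?_) (by positivity)
          exact mul_le_mul_of_nonneg_right hXJ (by positivity)
      _ = 4 ^ (2 * J) * (C * 2 ^ (J + 1) + (C * (1 + 2 ^ (J + 1)) + (16 * A) ^ (2 * J)) + (6 * A) ^ (2 * J)) *
            X ^ (J + 1) := by ring

end Pool.Agent.Helper43.AM
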